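import Mathlib

set_option autoImplicit false

namespace Pool.Agent.H.MP_89ac68_lc

open Finset Classical

variable {ι : Type} (c : ι → ℕ → Option Bool)

/-- the point lies in the subcube with index i, read on the active variables V -/
def In (V : Finset ℕ) (i : ι) (σ : ℕ → Bool) : Prop :=
  ∀ v ∈ V, ∀ b, c i v = some b → σ v = b

structure Part (I : Finset ι) (V : Finset ℕ) : Prop where
  cover : ∀ σ, ∃ i ∈ I, In c V i σ
  uniq : ∀ i ∈ I, ∀ j ∈ I, ∀ σ, In c V i σ → In c V j σ → i = j

def Tight (I : Finset ι) (V : Finset ℕ) : Prop :=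
  ∀ v ∈ V, ∃ i ∈ I, ∃ b, c i v = some b

def pt (i : ι) : ℕ → Bool := fun v => (c i v).getD false

lemma pt_in (V : Finset ℕ) (i : ι) : In c V i (pt c i) := by
  intro v _ b h
  simp [pt, h]

/-- main clauses of singular literals -/
noncomputable def M (I : Finset ι) (V : Finset ℕ) : Finset ι :=
  I.filter (fun i => ∃ v ∈ V, ∃ b, c i v = some b ∧ ∀ j ∈ I, c j v = some b → j = i)

noncomputable def side (I : Finset ι) (v : ℕ) (b : Bool) : Finset ι :=
  I.filter (fun i => c i v = some b)

noncomputable def res (I : Finset ι) (v : ℕ) (b : Bool) : Finset ι :=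
  I.filter (fun i => c i v ≠ some (!b))

variable {c}

lemma in_free {V : Finset ℕ} {i : ι} {σ : ℕ → Bool} {w : ℕ} (e : Bool)
    (h : In c V i σ) (hw : c i w = none) : In c V i (Function.update σ w e) := by
  intro v hv b hb
  by_cases hvw : v = w
  · subst hvw; rw [hw] at hb; cases hb
  · rw [Function.update_of_ne hvw]; exact h v hv b hb

lemma in_free' {V : Finset ℕ} {i : ι} {σ : ℕ → Bool} {w : ℕ} (e : Bool)
    (h : In c V i (Function.update σ w e)) (hw : c i w = none) : In c V i σ := by
  have := in_free (σ w) h hw
  simpa using this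

lemma opt_cases (o : Option Bool) (b : Bool) : o = none ∨ o = some b ∨ o = some (!b) := by
  rcases o with _ | x
  · simp
  · cases x <;> cases b <;> simp

lemma both {I : Finset ι} {V : Finset ℕ} (h : Part c I V) {v : ℕ} (hv : v ∈ V) {i : ι}
    (hi : i ∈ I) {b : Bool} (hb : c i v = some b) : ∃ j ∈ I, c j v = some (!b) := by
  obtain ⟨j, hj, hin⟩ := h.cover (Function.update (pt c i) v (!b))
  refine ⟨j, hj, ?_⟩
  rcases opt_cases (c j v) b with h0 | h0 | h0
  · have := h.uniq i hi j hj _ (pt_in c V i) (in_free' _ hin h0)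
    subst this
    rw [hb] at h0; cases h0
  · have := hin v hv b h0
    simp at this
  · exact h0

lemma in_update {V : Finset ℕ} {v : ℕ} (hv : v ∈ V) {i : ι} {σ : ℕ → Bool} {b : Bool} :
    In c V i (Function.update σ v b) ↔ (c i v ≠ some (!b) ∧ In c (V.erase v) i σ) := by
  constructor
  · intro h
    refine ⟨fun h0 => ?_, fun u hu e he => ?_⟩
    · have := h v hv _ h0
      simp at this
    · have := h u (mem_of_mem_erase hu) e he
      rwa [Function.update_of_ne (ne_of_mem_erase hu)] at this
  · rintro ⟨h1, h2⟩ u hu e he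
    by_cases huv : u = v
    · subst huv
      rw [Function.update_self]
      rw [he] at h1
      cases e <;> cases b <;> simp_all
    · rw [Function.update_of_ne huv]
      exact h2 u (mem_erase.2 ⟨huv, hu⟩) e he

lemma part_res {I : Finset ι} {V : Finset ℕ} (h : Part c I V) {v : ℕ} (hv : v ∈ V) (b : Bool) :
    Part c (res c I v b) (V.erase v) := by
  constructor
  · intro σ
    obtain ⟨i, hi, hin⟩ := h.cover (Function.update σ v b)
    rw [in_update hv] at hin
    exact ⟨i, mem_filter.2 ⟨hi, hin.1⟩, hin.2⟩
  · intro i hi j hj σ h1 h2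
    rw [res, mem_filter] at hi hj
    exact h.uniq i hi.1 j hj.1 (Function.update σ v b) ((in_update hv).2 ⟨hi.2, h1⟩)
      ((in_update hv).2 ⟨hj.2, h2⟩)

lemma card_res (I : Finset ι) (v : ℕ) (b : Bool) :
    (res c I v b).card + (side c I v (!b)).card = I.card := by
  rw [res, side, add_comm]
  exact card_filter_add_card_filter_not (s := I) (fun i => c i v = some (!b))

/-- side clauses of a singular literal contain the rest of the main clause -/
lemma side_sub {I : Finset ι} {V : Finset ℕ} (h : Part c I V) {v : ℕ} (hv : v ∈ V) {i0 : ι}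
    {b : Bool} (hu0 : ∀ j ∈ I, c j v = some b → j = i0) {j : ι} (hj : j ∈ I)
    (hjv : c j v = some (!b)) {u : ℕ} (hu : u ∈ V) (huv : u ≠ v) {e : Bool}
    (he : c i0 u = some e) : c j u = some e := by
  by_contra hne
  have hσ : In c V j (Function.update (pt c j) u (!e)) := by
    rw [in_update hu]
    refine ⟨by simpa using hne, fun w hw f hf => pt_in c V j w (mem_of_mem_erase hw) f hf⟩
  set σ := Function.update (pt c j) u (!e) with hσdef
  obtain ⟨k, hk, hin⟩ := h.cover (Function.update σ v b)
  rcases opt_cases (c k v) b with h0 | h0 | h0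
  · have := h.uniq k hk j hj σ (in_free' _ hin h0) hσ
    subst this
    rw [hjv] at h0; cases h0
  · have := hu0 k hk h0
    subst this
    have := hin u hu e he
    rw [Function.update_of_ne huv, hσdef, Function.update_self] at this
    simp at this
  · have := hin v hv _ h0
    simp at this

lemma dp_step {I : Finset ι} {V : Finset ℕ} (h : Part c I V) (ht : Tight c I V) {i0 : ι}
    (hi0 : i0 ∈ M c I V) : ∃ v ∈ V, Part c (I.erase i0) (V.erase v) ∧
      Tight c (I.erase i0) (V.erase v) ∧ M c (I.erase i0) (V.erase v) ⊆ (M c I V).erase i0 := by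
  have hi0' := hi0
  rw [M, mem_filter] at hi0'
  obtain ⟨hi, v, hv, b, hb, hu0⟩ := hi0'
  have hres : res c I v (!b) = I.erase i0 := by
    ext j
    simp only [res, mem_filter, Bool.not_not, mem_erase]
    constructor
    · rintro ⟨h1, h2⟩
      exact ⟨fun h3 => h2 (h3 ▸ hb), h1⟩
    · rintro ⟨h1, h2⟩
      exact ⟨h2, fun h3 => h1 (hu0 j h2 h3)⟩
  obtain ⟨j0, hj0, hj0v⟩ := both h hv hi hb
  have hne : ∀ j, c j v = some (!b) → j ≠ i0 := by
    intro j hj h3
    subst h3
    rw [hb] at hj
    simp at hj
  refine ⟨v, hv, hres ▸ part_res h hv (!b), ?_, ?_⟩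
  · intro u hu
    obtain ⟨i, hi', e, he⟩ := ht u (mem_of_mem_erase hu)
    by_cases hii : i = i0
    · subst hii
      exact ⟨j0, mem_erase.2 ⟨hne j0 hj0v, hj0⟩, e,
        side_sub h hv hu0 hj0 hj0v (mem_of_mem_erase hu) (ne_of_mem_erase hu) he⟩
    · exact ⟨i, mem_erase.2 ⟨hii, hi'⟩, e, he⟩
  · intro i hiM
    rw [M, mem_filter] at hiM
    obtain ⟨hi', u, hu, e, he, huq⟩ := hiM
    refine mem_erase.2 ⟨ne_of_mem_erase hi', ?_⟩
    rw [M, mem_filter]
    refine ⟨mem_of_mem_erase hi', ?_⟩
    by_cases h0 : c i0 u = some e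
    · have key : ∀ j ∈ I, c j v = some (!b) → j = i := by
        intro j hj hjv
        exact huq j (mem_erase.2 ⟨hne j hjv, hj⟩)
          (side_sub h hv hu0 hj hjv (mem_of_mem_erase hu) (ne_of_mem_erase hu) h0)
      exact ⟨v, hv, !b, (key j0 hj0 hj0v) ▸ hj0v, key⟩
    · refine ⟨u, mem_of_mem_erase hu, e, he, fun j hj hje => huq j (mem_erase.2 ⟨?_, hj⟩) hje⟩
      intro h3
      exact h0 (h3 ▸ hje)

lemma min_var {I : Finset ι} {V : Finset ℕ} (h : Part c I V) (ht : Tight c I V)
    (hV : V.Nonempty) : ∃ v ∈ V, ∀ b, (side c I v b).Nonempty ∧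
      Tight c (res c I v b) (V.erase v) := by
  obtain ⟨v, hv, hmin⟩ := exists_min_image V
    (fun v => (I.filter (fun i => c i v ≠ none)).card) hV
  have hne : ∀ b, (side c I v b).Nonempty := by
    intro b
    obtain ⟨i, hi, e, he⟩ := ht v hv
    by_cases hb : e = b
    · exact ⟨i, mem_filter.2 ⟨hi, hb ▸ he⟩⟩
    · obtain ⟨j, hj, hjv⟩ := both h hv hi he
      refine ⟨j, mem_filter.2 ⟨hj, ?_⟩⟩
      rw [hjv]
      cases e <;> cases b <;> simp_all
  refine ⟨v, hv, fun b => ⟨hne b, fun u hu => ?_⟩⟩
  by_contra hno
  push Not at hno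
  have h1 : I.filter (fun i => c i u ≠ none) ⊆ side c I v (!b) := by
    intro i hi
    rw [mem_filter] at hi
    refine mem_filter.2 ⟨hi.1, ?_⟩
    by_contra h2
    obtain ⟨e, he⟩ := Option.ne_none_iff_exists'.1 hi.2
    exact hno i (mem_filter.2 ⟨hi.1, h2⟩) e he
  have h2 : side c I v (!b) ⊂ I.filter (fun i => c i v ≠ none) := by
    obtain ⟨j, hj⟩ := hne b
    rw [side, mem_filter] at hj
    refine (ssubset_iff_of_subset ?_).2 ⟨j, mem_filter.2 ⟨hj.1, by simp [hj.2]⟩, ?_⟩
    · intro i hi
      rw [side, mem_filter] at hi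
      exact mem_filter.2 ⟨hi.1, by simp [hi.2]⟩
    · rw [side, mem_filter, hj.2]
      simp
  have h3 := card_le_card h1
  have h4 := card_lt_card h2
  have h5 := hmin u (mem_of_mem_erase hu)
  omega

lemma tarsi : ∀ (n : ℕ) (I : Finset ι) (V : Finset ℕ), V.card = n → Part c I V → Tight c I V →
    V.card + 1 ≤ I.card := by
  intro n
  induction n with
  | zero =>
    intro I V hV h _
    obtain ⟨i, hi, _⟩ := h.cover (fun _ => false)
    have := card_pos.2 ⟨i, hi⟩
    omega
  | succ n ih =>
    intro I V hV h ht
    obtain ⟨v, hv, hb⟩ := min_var h ht (card_pos.1 (by omega))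
    have h1 := card_erase_of_mem hv
    have h2 := ih (res c I v true) (V.erase v) (by omega) (part_res h hv true) (hb true).2
    have h3 := card_res (c := c) I v true
    have h4 := card_pos.2 (hb (!true)).1
    omega

lemma main_bound {I : Finset ι} {V : Finset ℕ} (h : Part c I V) (hM : M c I V = ∅) {v : ℕ}
    (hv : v ∈ V) (b : Bool) : (M c (res c I v b) (V.erase v)).card ≤
      (side c I v b).card + (side c I v (!b)).card * (side c I v (!b)).card := by
  have h0 := part_res h hv b
  set K := (M c (res c I v b) (V.erase v)).filter (fun i => c i v = none) with hK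
  have hsub : M c (res c I v b) (V.erase v) ⊆ side c I v b ∪ K := by
    intro i hi
    have hi' := (mem_filter.1 (mem_filter.1 hi).1)
    rcases opt_cases (c i v) b with h1 | h1 | h1
    · exact mem_union_right _ (mem_filter.2 ⟨hi, h1⟩)
    · exact mem_union_left _ (mem_filter.2 ⟨hi'.1, h1⟩)
    · exact absurd h1 hi'.2
  have hKc : K.card ≤ ((side c I v (!b)) ×ˢ (side c I v (!b))).card := by
    refine card_le_card_of_forall_subsingleton
      (fun i (p : ι × ι) => ∃ w ∈ V.erase v, ∃ e, c i w = some e ∧
        (∀ j ∈ res c I v b, c j w = some e → j = i) ∧ c p.1 w = some e ∧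
        In c V p.2 (Function.update (pt c p.1) w (!e))) ?_ ?_
    · intro i hi
      rw [hK, mem_filter, M, mem_filter] at hi
      obtain ⟨⟨hi, w, hw, e, he, huq⟩, hiv⟩ := hi
      have hiI := (mem_filter.1 hi).1
      have hnot : i ∉ M c I V := by rw [hM]; simp
      rw [M, mem_filter] at hnot
      push Not at hnot
      obtain ⟨D, hD, hDw, hDi⟩ := hnot hiI w (mem_of_mem_erase hw) e he
      have hDv : c D v = some (!b) := by
        by_contra h1
        exact hDi (huq D (mem_filter.2 ⟨hD, h1⟩) hDw)
      obtain ⟨k, hk, hin⟩ := h.cover (Function.update (pt c D) w (!e))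
      refine ⟨(D, k), mem_product.2 ⟨mem_filter.2 ⟨hD, hDv⟩, mem_filter.2 ⟨hk, ?_⟩⟩,
        w, hw, e, he, huq, hDw, hin⟩
      show c k v = some (!b)
      rcases opt_cases (c k v) b with h1 | h1 | h1
      · exfalso
        obtain ⟨E, hE, hinE⟩ := h0.cover (pt c D)
        have hE' := mem_filter.1 hE
        have hEv : c E v ≠ none := by
          intro h2
          have h3 : In c V E (pt c D) := by
            intro u hu f hf
            by_cases huv : u = v
            · subst huv; rw [h2] at hf; cases hf
            · exact hinE u (mem_erase.2 ⟨huv, hu⟩) f hf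
          have := h.uniq E hE'.1 D hD _ h3 (pt_in c V D)
          subst this
          exact hE'.2 hDv
        have hEw : c E w = none := by
          rcases opt_cases (c E w) e with h2 | h2 | h2
          · exact h2
          · have := huq E hE h2
            subst this
            exact absurd hiv hEv
          · have h3 := hinE w hw _ h2
            simp [pt, hDw] at h3
        have h4 : In c (V.erase v) k (Function.update (pt c D) w (!e)) :=
          fun u hu f hf => hin u (mem_of_mem_erase hu) f hf
        have := h0.uniq E hE k (mem_filter.2 ⟨hk, by simp [h1]⟩) _ (in_free (!e) hinE hEw) h4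
        subst this
        exact hEv h1
      · exfalso
        have h2 := hin v hv _ h1
        rw [Function.update_of_ne (ne_of_mem_erase hw).symm] at h2
        simp [pt, hDv] at h2
      · exact h1
    · rintro ⟨D, k⟩ hp i ⟨hi, w, hw, e, he, huq, hDw, hin⟩ i' ⟨hi', w', hw', e', he', huq', hDw', hin'⟩
      rw [mem_product] at hp
      have hD := (mem_filter.1 hp.1).1
      have hk := (mem_filter.1 hp.2).1
      simp only at hDw hin hDw' hin' hD hk
      have hi2 : i' ∈ res c I v b := (mem_filter.1 (mem_filter.1 hi').1).1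
      by_cases hww : w = w'
      · subst hww
        have : e = e' := by rw [hDw] at hDw'; exact Option.some.inj hDw'
        subst this
        exact (huq i' hi2 he').symm
      · exfalso
        have h3 : In c V k (pt c D) := by
          intro u hu f hf
          by_cases huw : u = w
          · have := hin' u hu f hf
            rwa [Function.update_of_ne (huw ▸ hww)] at this
          · have := hin u hu f hf
            rwa [Function.update_of_ne huw] at this
        have := h.uniq k hk D hD _ h3 (pt_in c V D)
        subst this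
        have := hin w (mem_of_mem_erase hw) e hDw
        simp at this
  have h1 := card_le_card hsub
  have h2 := card_union_le (side c I v b) K
  rw [card_product] at hKc
  omega

theorem finite_bound (k : ℕ) : ∃ N : ℕ, ∀ (I : Finset ι) (V : Finset ℕ), Part c I V → Tight c I V →
    I.card ≤ V.card + k → V.card ≤ N + (M c I V).card := by
  induction k with
  | zero =>
    refine ⟨0, fun I V h ht hc => ?_⟩
    have := tarsi _ I V rfl h ht
    omega
  | succ k ih =>
    obtain ⟨N, hN⟩ := ih
    refine ⟨N + 1 + (k + 1) + (k + 1) * (k + 1), ?_⟩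
    suffices H : ∀ (n : ℕ) (I : Finset ι) (V : Finset ℕ), V.card = n → Part c I V → Tight c I V →
        I.card ≤ V.card + (k + 1) →
        V.card ≤ N + 1 + (k + 1) + (k + 1) * (k + 1) + (M c I V).card from
      fun I V => H _ I V rfl
    intro n
    induction n with
    | zero => intro I V hV _ _ _; omega
    | succ n ih2 =>
      intro I V hV h ht hc
      rcases (M c I V).eq_empty_or_nonempty with hM | ⟨i0, hi0⟩
      · obtain ⟨v, hv, hb⟩ := min_var h ht (card_pos.1 (by omega))
        have h1 := card_erase_of_mem hv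
        have hs : ∀ b, (side c I v (!b)).card ≤ k + 1 := by
          intro b
          have h2 := tarsi _ (res c I v b) (V.erase v) rfl (part_res h hv b) (hb b).2
          have h3 := card_res (c := c) I v b
          omega
        have h2 : 2 ≤ (side c I v (!true)).card := by
          obtain ⟨i, hi⟩ := (hb (!true)).1
          have hi' := mem_filter.1 hi
          have hnot : i ∉ M c I V := by rw [hM]; simp
          rw [M, mem_filter] at hnot
          push Not at hnot
          obtain ⟨D, hD, hDw, hDi⟩ := hnot hi'.1 v hv _ hi'.2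
          exact one_lt_card.2 ⟨D, mem_filter.2 ⟨hD, hDw⟩, i, hi, hDi⟩
        have h3 := card_res (c := c) I v true
        have h4 := hN (res c I v true) (V.erase v) (part_res h hv true) (hb true).2 (by omega)
        have h5 := main_bound h hM hv true
        have h6 := hs true
        have h7 := hs false
        have h8 : (side c I v (!true)).card * (side c I v (!true)).card ≤ (k + 1) * (k + 1) :=
          Nat.mul_le_mul h6 h6
        simp only [Bool.not_false] at h7
        omega
      · obtain ⟨v, hv, hp, ht', hsub⟩ := dp_step h ht hi0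
        have h1 := card_erase_of_mem hv
        have hi : i0 ∈ I := (mem_filter.1 hi0).1
        have h2 := card_erase_of_mem hi
        have h3 := ih2 (I.erase i0) (V.erase v) (by omega) hp ht' (by omega)
        have h4 := card_le_card hsub
        have h5 := card_erase_of_mem hi0
        have h6 := card_pos.2 ⟨i0, hi0⟩
        omega

end Pool.Agent.H.MP_89ac68_lc
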